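import Mathlib

namespace Pool.Agent.Results.MP_3a69bf_ag.NotToric

open MvPolynomial Classical Matrix Relation

variable {n : ℕ}

/-- indices of the variables `σ_ij`, `i ≤ j` -/
abbrev Idx (n : ℕ) := {p : Fin n × Fin n // p.1 ≤ p.2}

/-- `Σ = (I - Λ)^{-T} Ω (I - Λ)^{-1}` with `Ω = diagonal w` -/
noncomputable def cov (L : Matrix (Fin n) (Fin n) ℝ) (w : Fin n → ℝ) : Matrix (Fin n) (Fin n) ℝ :=
  ((1 - L)⁻¹)ᵀ * diagonal w * (1 - L)⁻¹

/-- the Gaussian DAG model, as a set of points with coordinates `σ_ij` -/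
def model (E : Fin n → Fin n → Prop) : Set (Idx n → ℝ) :=
  {x | ∃ L w, (∀ a b, ¬ E a b → L a b = 0) ∧ (∀ a, 0 < w a) ∧ x = fun s => cov L w s.1.1 s.1.2}

/-- toric: a prime ideal generated by binomials -/
def IsToric (I : Ideal (MvPolynomial (Idx n) ℝ)) : Prop :=
  I.IsPrime ∧ ∃ S, (∀ f ∈ S, ∃ u a v b, f = monomial u a - monomial v b) ∧ I = Ideal.span S

/-- `C` d-separates `i` and `j`: every path (list of distinct vertices, consecutive ones adjacent)
from `i` to `j` has a non-collider in `C` or a collider with no descendant (itself included) in `C` -/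
def DSep (E : Fin n → Fin n → Prop) (C : Finset (Fin n)) (i j : Fin n) : Prop :=
  ∀ l : List (Fin n), l.head? = some i → l.getLast? = some j → l.Nodup →
    (∀ a b, [a, b] <:+: l → E a b ∨ E b a) → ∃ a b c, [a, b, c] <:+: l ∧
      ((¬ (E a b ∧ E c b) ∧ b ∈ C) ∨ (E a b ∧ E c b ∧ ∀ d, ReflTransGen E b d → d ∉ C))

section
variable {E : Fin n → Fin n → Prop} {L : Matrix (Fin n) (Fin n) ℝ}

lemma wf (hE : ∀ v, ¬ TransGen E v v) : WellFounded E := by
  have : Std.Irrefl (TransGen E) := ⟨hE⟩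
  exact Subrelation.wf TransGen.single (Finite.wellFounded_of_trans_of_irrefl (TransGen E))

lemma unit (hE : ∀ v, ¬ TransGen E v v) (hL : ∀ a b, ¬ E a b → L a b = 0) : IsUnit (1 - L).det := by
  rw [← isUnit_iff_isUnit_det, ← vecMul_injective_iff_isUnit]
  intro x y h
  have h1 : (x - y) ᵥ* (1 - L) = 0 := by rw [sub_vecMul]; exact sub_eq_zero.2 h
  rw [vecMul_sub, vecMul_one, sub_eq_zero] at h1
  rw [← sub_eq_zero]
  funext v
  induction v using (wf hE).induction with
  | _ v ih =>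
    rw [h1]
    change ∑ q, (x - y) q * L q v = 0
    refine Finset.sum_eq_zero fun q _ => ?_
    by_cases hq : E q v
    · rw [ih q hq]; simp
    · simp [hL _ _ hq]

lemma B_rec (hE : ∀ v, ¬ TransGen E v v) (hL : ∀ a b, ¬ E a b → L a b = 0) (u v : Fin n) :
    (1 - L)⁻¹ u v = (if u = v then 1 else 0) + ∑ q, (1 - L)⁻¹ u q * L q v := by
  have := congrFun (congrFun (nonsing_inv_mul _ (unit hE hL)) u) v
  rw [mul_sub, mul_one, Matrix.sub_apply, Matrix.mul_apply, one_apply] at this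
  linarith

lemma B_zero (hE : ∀ v, ¬ TransGen E v v) (hL : ∀ a b, ¬ E a b → L a b = 0) (u v : Fin n) :
    ¬ ReflTransGen E u v → (1 - L)⁻¹ u v = 0 := by
  induction v using (wf hE).induction with
  | _ v ih =>
    intro h
    rw [B_rec hE hL, if_neg fun e : u = v => h (e ▸ .refl), zero_add]
    refine Finset.sum_eq_zero fun q _ => ?_
    by_cases hq : E q v
    · rw [ih q hq fun h' => h (h'.tail hq), zero_mul]
    · simp [hL _ _ hq]

lemma B_eq (hE : ∀ v, ¬ TransGen E v v) (hL : ∀ a b, ¬ E a b → L a b = 0) {L' : Matrix _ _ ℝ}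
    (hL' : ∀ a b, ¬ E a b → L' a b = 0) {j : Fin n} (h : ∀ a b, b ≠ j → L a b = L' a b)
    (u v : Fin n) : ¬ ReflTransGen E j v → (1 - L)⁻¹ u v = (1 - L')⁻¹ u v := by
  induction v using (wf hE).induction with
  | _ v ih =>
    intro hv
    rw [B_rec hE hL, B_rec hE hL']
    congr 1
    refine Finset.sum_congr rfl fun q _ => ?_
    by_cases hq : E q v
    · rw [ih q hq fun h' => hv (h'.tail hq), h _ _ fun e : v = j => hv (e ▸ .refl)]
    · simp [hL _ _ hq, hL' _ _ hq]

lemma cov_apply (w : Fin n → ℝ) (k m : Fin n) :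
    cov L w k m = ∑ t, (1 - L)⁻¹ t k * w t * (1 - L)⁻¹ t m := by
  simp [cov, mul_apply, diagonal]

lemma cov_symm (w : Fin n → ℝ) (k m : Fin n) : cov L w k m = cov L w m k := by
  simp only [cov_apply]; exact Finset.sum_congr rfl fun _ _ => by ring

lemma cov_rec (hE : ∀ v, ¬ TransGen E v v) (hL : ∀ a b, ¬ E a b → L a b = 0) (w : Fin n → ℝ)
    {i j : Fin n} (h : ¬ ReflTransGen E j i) : cov L w i j = ∑ p, cov L w i p * L p j := by
  have : cov L w * (1 - L) = ((1 - L)⁻¹)ᵀ * diagonal w := by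
    rw [cov, mul_assoc, nonsing_inv_mul _ (unit hE hL), mul_one]
  have := congrFun (congrFun this i) j
  rw [mul_sub, mul_one, Matrix.sub_apply, Matrix.mul_apply, mul_diagonal, transpose_apply, B_zero hE hL _ _ h,
    zero_mul] at this
  linarith

/-- indicator matrix -/
noncomputable def ind (E : Fin n → Fin n → Prop) : Matrix (Fin n) (Fin n) ℝ :=
  of fun a b => if E a b then 1 else 0

lemma cov_ind (hE : ∀ v, ¬ TransGen E v v) (k m : Fin n) :
    cov (ind E) 1 k m ≠ 0 ↔ ∃ t, ReflTransGen E t k ∧ ReflTransGen E t m := by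
  have hL : ∀ a b, ¬ E a b → ind E a b = 0 := fun a b h => by simp [ind, h]
  have h0 : ∀ a b, 0 ≤ ind E a b := fun a b => by simp only [ind, of_apply]; positivity
  have h1 : ∀ u v, 0 ≤ (1 - ind E)⁻¹ u v := fun u v => by
    induction v using (wf hE).induction with
    | _ v ih =>
      rw [B_rec hE hL]
      refine add_nonneg (by positivity) (Finset.sum_nonneg fun q _ => ?_)
      by_cases hq : E q v
      · exact mul_nonneg (ih q hq) (h0 _ _)
      · simp [hL _ _ hq]
  have h2 : ∀ u v, ReflTransGen E u v → 0 < (1 - ind E)⁻¹ u v := fun u v h => by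
    rw [B_rec hE hL]
    induction h with
    | refl =>
      rw [if_pos rfl]
      exact add_pos_of_pos_of_nonneg one_pos
        (Finset.sum_nonneg fun q _ => mul_nonneg (h1 _ _) (h0 _ _))
    | @tail q v _ hq ih =>
      rw [← B_rec hE hL] at ih
      refine add_pos_of_nonneg_of_pos (by positivity) (Finset.sum_pos'
        (fun q _ => mul_nonneg (h1 _ _) (h0 _ _)) ⟨q, by simp, ?_⟩)
      simpa [ind, hq] using ih
  rw [cov_apply]
  constructor
  · intro h
    obtain ⟨t, -, ht⟩ := Finset.exists_ne_zero_of_sum_ne_zero h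
    refine ⟨t, by_contra fun h => ht ?_, by_contra fun h => ht ?_⟩ <;> simp [B_zero hE hL _ _ h]
  · rintro ⟨t, a, b⟩
    refine (Finset.sum_pos' (fun q _ => ?_) ⟨t, by simp, ?_⟩).ne'
    · simpa using mul_nonneg (h1 _ _) (h1 _ _)
    · simpa using mul_pos (h2 _ _ a) (h2 _ _ b)

lemma path (hE : ∀ v, ¬ TransGen E v v) (C : Finset (Fin n)) (j : Fin n) (hj : j ∉ C) :
    ∀ (l : List (Fin n)) (u : Fin n), u ∉ C → (u :: l).getLast? = some j →
    (∀ a b, [a, b] <:+: u :: l → E a b ∨ E b a) →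
    (∀ a b c, [a, b, c] <:+: u :: l → (¬ (E a b ∧ E c b) → b ∉ C) ∧
      (E a b → E c b → ∃ d, ReflTransGen E b d ∧ d ∈ C)) →
    ((∃ t, ReflTransGen (fun a b => E a b ∧ a ∉ C) t u ∧
        ReflTransGen (fun a b => E a b ∧ a ∉ C) t j) ∧
      ∀ v ∈ l.head?, E u v → ReflTransGen (fun a b => E a b ∧ a ∉ C) u j) ∨
    ∃ p ∈ C, (∃ t, ReflTransGen (fun a b => E a b ∧ a ∉ C) t u ∧ ReflTransGen E t p) ∧
      ∀ v ∈ l.head?, E u v → ReflTransGen E u p
  | [], u, _, h, _, _ => by
    obtain rfl : u = j := by simpa using h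
    exact Or.inl ⟨⟨u, .refl, .refl⟩, by simp⟩
  | [v], u, hu, h, h1, _ => by
    obtain rfl : v = j := by simpa using h
    refine Or.inl ⟨?_, by simpa using fun h => .single ⟨h, hu⟩⟩
    rcases h1 u v (by simp) with h | h
    · exact ⟨u, .refl, .single ⟨h, hu⟩⟩
    · exact ⟨v, .single ⟨h, hj⟩, .refl⟩
  | v :: w :: l, u, hu, h, h1, h2 => by
    have s1 : v :: w :: l <:+: u :: v :: w :: l := (List.suffix_cons _ _).isInfix
    have huv := h1 u v (List.prefix_append [u, v] _).isInfix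
    have hvw := h1 v w ((List.prefix_append [v, w] _).isInfix.trans s1)
    have h3 := h2 u v w (List.prefix_append [u, v, w] _).isInfix
    have asy : E v u → ¬ E u v := fun a b => hE u ((TransGen.single b).tail a)
    by_cases hc : E u v ∧ E w v
    · obtain ⟨d, hd, hd'⟩ := h3.2 hc.1 hc.2
      exact Or.inr ⟨d, hd', ⟨u, .refl, .head hc.1 hd⟩, fun _ _ _ => .head hc.1 hd⟩
    have hv := h3.1 hc
    rcases path hE C j hj (w :: l) v hv (by simpa using h) (fun a b h => h1 a b (h.trans s1))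
      (fun a b c h => h2 a b c (h.trans s1)) with ⟨⟨t, a, b⟩, c⟩ | ⟨p, hp, ⟨t, a, b⟩, c⟩
    · left
      rcases huv with h' | h'
      · have := ReflTransGen.head (r := fun a b => E a b ∧ a ∉ C) ⟨h', hu⟩
          (c w rfl (hvw.resolve_right fun h => hc ⟨h', h⟩))
        exact ⟨⟨u, .refl, this⟩, fun _ _ _ => this⟩
      · exact ⟨⟨t, a.tail ⟨h', hv⟩, b⟩, by simpa using fun h => absurd h (asy h')⟩
    · refine Or.inr ⟨p, hp, ?_⟩
      rcases huv with h' | h'
      · have := ReflTransGen.head h' (c w rfl (hvw.resolve_right fun h => hc ⟨h', h⟩))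
        exact ⟨⟨u, .refl, this⟩, fun _ _ _ => this⟩
      · exact ⟨⟨t, a.tail ⟨h', hv⟩, b⟩, by simpa using fun h => absurd h (asy h')⟩

lemma dsep_of (hE : ∀ v, ¬ TransGen E v v) (C : Finset (Fin n)) {i j : Fin n} (hi : i ∉ C)
    (hj : j ∉ C) (h1 : ¬ ∃ t, ReflTransGen (fun a b => E a b ∧ a ∉ C) t i ∧
      ReflTransGen (fun a b => E a b ∧ a ∉ C) t j)
    (h2 : ∀ p ∈ C, ∀ q ∈ C, ¬ ((∃ t, ReflTransGen (fun a b => E a b ∧ a ∉ C) t i ∧
      ReflTransGen E t p) ∧ ∃ t, ReflTransGen (fun a b => E a b ∧ a ∉ C) t j ∧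
        ReflTransGen E t q)) : DSep E C i j := by
  intro l a b _ c
  by_contra d
  have d' : ∀ a b c, [a, b, c] <:+: l → (¬ (E a b ∧ E c b) → b ∉ C) ∧
      (E a b → E c b → ∃ d, ReflTransGen E b d ∧ d ∈ C) := fun a b c h =>
    ⟨fun h1 h2 => d ⟨a, b, c, h, Or.inl ⟨h1, h2⟩⟩, fun h1 h2 => by_contra fun h3 =>
      d ⟨a, b, c, h, Or.inr ⟨h1, h2, fun x hx hx' => h3 ⟨x, hx, hx'⟩⟩⟩⟩
  obtain ⟨l1, e1⟩ : ∃ l1, l = i :: l1 := List.head?_eq_some_iff.1 a
  obtain ⟨l2, e2⟩ : ∃ l2, l.reverse = j :: l2 := List.head?_eq_some_iff.1 (by simpa using b)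
  have r1 := path hE C j hj l1 i hi (e1 ▸ b) (e1 ▸ c) (e1 ▸ d')
  have r2 := path hE C i hi l2 j hj (by rw [← e2]; simpa using a)
    (fun a b h => (c b a (by rw [← List.reverse_infix, e2]; simpa using h)).symm)
    (fun a b c h => by
      have := d' c b a (by rw [← List.reverse_infix, e2]; simpa using h)
      exact ⟨fun h => this.1 fun h' => h h'.symm, fun x y => this.2 y x⟩)
  rcases r1 with r1 | ⟨p, hp, r1, -⟩
  · exact h1 r1.1
  rcases r2 with ⟨⟨t, x, y⟩, -⟩ | ⟨q, hq, r2, -⟩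
  · exact h1 ⟨t, y, x⟩
  exact h2 p hp q hq ⟨r1, r2⟩

/-- projection onto a set of monomials -/
noncomputable def pr {σ : Type} (C : Set (σ →₀ ℕ)) : MvPolynomial σ ℝ →ₗ[ℝ] MvPolynomial σ ℝ :=
  (basisMonomials σ ℝ).constr ℝ fun u => if u ∈ C then monomial u 1 else 0

lemma pr_mon {σ : Type} (C : Set (σ →₀ ℕ)) (u : σ →₀ ℕ) (a : ℝ) :
    pr C (monomial u a) = if u ∈ C then monomial u a else 0 := by
  have : monomial u a = a • basisMonomials σ ℝ u := by simp [smul_monomial]
  rw [this, map_smul, pr, Module.Basis.constr_basis]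
  split_ifs <;> simp [smul_monomial]

lemma pr_mem {σ : Type} {S : Set (MvPolynomial σ ℝ)}
    (hS : ∀ f ∈ S, ∃ u a v b, f = monomial u a - monomial v b) (C : Set (σ →₀ ℕ))
    (hC : ∀ u ∈ C, ∀ a v b, a ≠ 0 → b ≠ 0 → monomial u a - monomial v b ∈ Ideal.span S → v ∈ C)
    {f} (hf : f ∈ Ideal.span S) : pr C f ∈ Ideal.span S := by
  have key : ∀ u a v b, monomial u a - monomial v b ∈ Ideal.span S →
      pr C (monomial u a - monomial v b) ∈ Ideal.span S := by
    intro u a v b h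
    rw [map_sub, pr_mon, pr_mon]
    split_ifs with h1 h2 h2
    · exact h
    · by_cases ha : a = 0
      · simp [ha]
      by_cases hb : b = 0
      · simpa [hb] using h
      exact absurd (hC u h1 a v b ha hb h) h2
    · by_cases hb : b = 0
      · simp [hb]
      by_cases ha : a = 0
      · simpa [ha] using h
      exact absurd (hC v h2 b u a hb ha (by simpa using neg_mem h)) h1
    · simp
  have : ∀ r, pr C (r * f) ∈ Ideal.span S := by
    induction hf using Submodule.span_induction with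
    | mem f hf =>
      intro r
      induction r using MvPolynomial.induction_on' with
      | monomial t c =>
        have := Ideal.mul_mem_left _ (monomial t c) (Ideal.subset_span hf)
        obtain ⟨u, a, v, b, rfl⟩ := hS f hf
        rw [mul_sub, monomial_mul, monomial_mul] at this ⊢
        exact key _ _ _ _ this
      | add p q hp hq => rw [add_mul, map_add]; exact add_mem hp hq
    | zero => simp
    | add a b _ _ ha hb => intro r; rw [mul_add, map_add]; exact add_mem (ha r) (hb r)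
    | smul c a _ ha => intro r; rw [smul_eq_mul, ← mul_assoc]; exact ha _
  simpa using this 1

lemma span_ind {A : Type} [CommRing A] [Algebra ℝ A] (G : Submonoid A) (K : Submodule ℝ A)
    (h : ∀ m ∈ G, m ∈ K) {D : A} (hD : D ∈ Algebra.adjoin ℝ (G : Set A)) : D ∈ K := by
  rw [← Subalgebra.mem_toSubmodule, Algebra.adjoin_eq_span, Submonoid.closure_eq] at hD
  exact Submodule.span_le.2 h hD

lemma det_mem {A P : Type} [CommRing A] [Algebra ℝ A] [Fintype P] [DecidableEq P]
    (K : Subalgebra ℝ A) (M : Matrix P P A) (h : ∀ a b, M a b ∈ K) : M.det ∈ K := by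
  rw [Matrix.det_apply']
  exact K.sum_mem fun σ _ => K.mul_mem (intCast_mem K _) (K.prod_mem fun i _ => h _ _)

/-- the variable `σ_ij` -/
noncomputable def sg (i j : Fin n) : MvPolynomial (Idx n) ℝ := X ⟨(min i j, max i j), min_le_max⟩

/-- evaluation at a covariance matrix -/
noncomputable def ev (L : Matrix (Fin n) (Fin n) ℝ) (w : Fin n → ℝ) :
    MvPolynomial (Idx n) ℝ →ₐ[ℝ] ℝ := aeval fun s => cov L w s.1.1 s.1.2

lemma ev_sg (w : Fin n → ℝ) (i j : Fin n) : ev L w (sg i j) = cov L w i j := by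
  simp only [ev, sg, aeval_X]
  rcases le_total i j with h | h
  · simp [h]
  · simp [h, cov_symm w i j]

lemma mem_I {F} : F ∈ vanishingIdeal ℝ (model E) ↔
    ∀ L w, (∀ a b, ¬ E a b → L a b = 0) → (∀ a, 0 < w a) → ev L w F = 0 :=
  ⟨fun h L w a b => h _ ⟨L, w, a, b, rfl⟩, by rintro h _ ⟨L, w, a, b, rfl⟩; exact h L w a b⟩

lemma rel (hE : ∀ v, ¬ TransGen E v v) (hT : IsToric (vanishingIdeal ℝ (model E)))
    {i j : Fin n} (hij : ¬ ReflTransGen E j i) : sg i j ∈ vanishingIdeal ℝ (model E) ∨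
      ∃ p, E p j ∧ sg i j * sg p p - sg i p * sg p j ∈ vanishingIdeal ℝ (model E) := by
  obtain ⟨hP, S, hS, hI⟩ := hT
  set I := vanishingIdeal ℝ (model E) with hI0
  have hpa : ∀ p, E p j → ¬ ReflTransGen E j p := fun p h h' => hE j (.tail' h' h)
  let G : Submonoid (MvPolynomial (Idx n) ℝ) :=
    { carrier := {m | (∃ d, m = monomial d 1) ∧ ∀ L L' w, (∀ a b, ¬ E a b → L a b = 0) →
        (∀ a b, ¬ E a b → L' a b = 0) → (∀ a b, b ≠ j → L a b = L' a b) → ev L w m = ev L' w m}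
      one_mem' := ⟨⟨0, by simp⟩, by simp⟩
      mul_mem' := by
        rintro a b ⟨⟨d, ha⟩, ha'⟩ ⟨⟨d', hb⟩, hb'⟩
        exact ⟨⟨d + d', by rw [ha, hb, monomial_mul, one_mul]⟩, fun L L' w x y z => by
          rw [map_mul, map_mul, ha' L L' w x y z, hb' L L' w x y z]⟩ }
  have hG0 : ∀ k m, ¬ ReflTransGen E j k → ¬ ReflTransGen E j m → sg k m ∈ G := fun k m hk hm =>
    ⟨⟨_, rfl⟩, fun L L' w x y z => by
      simp only [ev_sg, cov_apply, B_eq hE x y z _ _ hk, B_eq hE x y z _ _ hm]⟩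
  have hG : ∀ k m, ¬ ReflTransGen E j k → ¬ ReflTransGen E j m →
      sg k m ∈ Algebra.adjoin ℝ (G : Set _) := fun k m hk hm =>
    Algebra.subset_adjoin (hG0 k m hk hm)
  let P := {p // E p j}
  let M : Matrix P P (MvPolynomial (Idx n) ℝ) := Matrix.of fun a b => sg a.1 b.1
  have hdet : M.det ∉ I := fun h => by
    have := mem_I.1 h 0 1 (by simp) (by simp)
    rw [AlgHom.map_det] at this
    have h2 : (ev 0 1).mapMatrix M = 1 := by
      ext a b; simp [M, ev_sg, cov, one_apply, Subtype.coe_inj]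
    simp [h2] at this
  let N : P → MvPolynomial (Idx n) ℝ := Matrix.vecMul (fun q : P => sg i q.1) M.adjugate
  have hN : ∀ p, N p ∈ Algebra.adjoin ℝ (G : Set _) := fun p => by
    change ∑ q : P, sg i q.1 * M.adjugate q p ∈ _
    refine Subalgebra.sum_mem _ fun q _ => Subalgebra.mul_mem _ (hG _ _ hij (hpa _ q.2)) ?_
    rw [Matrix.adjugate_apply]
    refine det_mem _ _ fun a b => ?_
    rw [Matrix.updateRow_apply]
    split_ifs
    · rw [Pi.single_apply]; split_ifs
      · exact one_mem _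
      · exact zero_mem _
    · exact hG _ _ (hpa _ a.2) (hpa _ b.2)
  have hNM : ∀ q : P, ∑ p, N p * sg p.1 q.1 = M.det * sg i q.1 := fun q => by
    have : Matrix.vecMul N M = M.det • fun q : P => sg i q.1 := by
      simp only [N, Matrix.vecMul_vecMul, Matrix.adjugate_mul, Matrix.vecMul_smul,
        Matrix.vecMul_one]
    exact congrFun this q
  have hF : M.det * sg i j - ∑ p, N p * sg p.1 j ∈ I := mem_I.2 fun L w hL _ => by
    have hsum : ∀ k, ¬ ReflTransGen E j k → cov L w k j = ∑ q : P, cov L w k q * L q j :=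
      fun k hk => by
        rw [cov_rec hE hL w hk, ← Finset.sum_subtype (Finset.univ.filter fun p => E p j) (by simp)
          fun p => cov L w k p * L p j]
        exact (Finset.sum_subset (by simp) fun x _ hx => by simp [hL x j (by simpa using hx)]).symm
    rw [map_sub, map_mul, map_sum, sub_eq_zero, ev_sg, hsum i hij, Finset.mul_sum]
    have : ∀ p : P, ev L w (N p * sg p.1 j) = ∑ q : P, ev L w (N p * sg p.1 q.1) * L q j :=
      fun p => by simp only [map_mul, ev_sg, hsum p.1 (hpa _ p.2), Finset.mul_sum, mul_assoc]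
    simp only [this]
    rw [Finset.sum_comm]
    refine Finset.sum_congr rfl fun q _ => ?_
    rw [← Finset.sum_mul, ← map_sum, hNM, map_mul, ev_sg, mul_assoc]
  by_cases h0 : sg i j ∈ I
  · exact Or.inl h0
  right
  let C : Set (Idx n →₀ ℕ) :=
    {v | ∃ m ∈ G, m * sg i j ∉ I ∧ ∃ c : ℝ, m * sg i j - monomial v c ∈ I}
  have hC : ∀ f ∈ I, pr C f ∈ I := fun f hf => by
    rw [hI] at hf ⊢
    refine pr_mem hS C ?_ hf
    rintro u ⟨m, hm, hm', c, hc⟩ a v b ha - h
    refine ⟨m, hm, hm', c / a * b, ?_⟩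
    have := add_mem hc (hI ▸ Ideal.mul_mem_left _ (MvPolynomial.C (c / a)) h)
    rwa [mul_sub, C_mul_monomial, C_mul_monomial, div_mul_cancel₀ _ ha, sub_add_sub_cancel] at this
  have hmon : ∀ m ∈ G, ∀ a b, ∃ v, m * sg a b = monomial v 1 := by
    rintro m ⟨⟨d, rfl⟩, -⟩ a b
    exact ⟨_, by rw [sg, X, monomial_mul, one_mul]⟩
  obtain ⟨p, m', hm', v, hv, m, hm, hm1, c, hc⟩ :
      ∃ p : P, ∃ m' ∈ G, ∃ v, m' * sg p.1 j = monomial v 1 ∧ v ∈ C := by
    by_contra hc
    push Not at hc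
    have a1 : ∀ p : P, pr C (N p * sg p.1 j) = 0 := fun p =>
      span_ind G (LinearMap.ker (pr C ∘ₗ LinearMap.mulRight ℝ (sg p.1 j))) (fun m hm => by
        obtain ⟨v, hv⟩ := hmon m hm p.1 j
        simp [hv, pr_mon, hc p m hm v hv]) (hN p)
    have a2 : M.det * sg i j - pr C (M.det * sg i j) ∈ I := by
      have := span_ind G ((I.restrictScalars ℝ).comap ((LinearMap.id - pr C) ∘ₗ
        LinearMap.mulRight ℝ (sg i j))) (fun m hm => by
          obtain ⟨v, hv⟩ := hmon m hm i j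
          simp only [Submodule.mem_comap, LinearMap.comp_apply, LinearMap.mulRight_apply,
            LinearMap.sub_apply, LinearMap.id_apply, Submodule.restrictScalars_mem]
          by_cases h : m * sg i j ∈ I
          · exact sub_mem h (hC _ h)
          · rw [hv, pr_mon, if_pos ⟨m, hm, h, 1, by simp [hv]⟩]; simp)
        (det_mem _ M fun a b => hG _ _ (hpa _ a.2) (hpa _ b.2))
      simpa only [Submodule.mem_comap, LinearMap.comp_apply, LinearMap.mulRight_apply,
        LinearMap.sub_apply, LinearMap.id_apply, Submodule.restrictScalars_mem] using this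
    have a3 := hC _ hF
    rw [map_sub, map_sum] at a3
    simp only [a1, Finset.sum_const_zero, sub_zero] at a3
    exact (hP.mem_or_mem (by simpa using add_mem a2 a3)).elim hdet h0
  refine ⟨p.1, p.2, (hP.mem_or_mem (x := m) (mem_I.2 fun L w hL hw => ?_)).resolve_left
    fun h => hm1 (Ideal.mul_mem_right _ _ h)⟩
  have e : monomial v c = MvPolynomial.C c * (m' * sg p.1 j) := by rw [hv, C_mul_monomial, mul_one]
  rw [e] at hc
  let L' := L.updateCol j (Pi.single p.1 1)
  have hL' : ∀ a b, ¬ E a b → L' a b = 0 := fun a b h => by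
    simp only [L', updateCol_apply]
    split_ifs with hb
    · exact Pi.single_eq_of_ne (fun e : a = p.1 => h (by rw [e, hb]; exact p.2)) _
    · exact hL a b h
  have hLL : ∀ a b, b ≠ j → L a b = L' a b := fun a b h => by simp [L', h]
  have b1 := mem_I.1 hc L w hL hw
  have b2 := mem_I.1 hc L' w hL' hw
  have b3 : ∀ k, ¬ ReflTransGen E j k → cov L' w k j = cov L w k p := fun k hk => by
    have := (hG0 k p hk (hpa _ p.2)).2 L L' w hL hL' hLL
    rw [ev_sg, ev_sg] at this
    simp [cov_rec hE hL' w hk, L', Pi.single_apply, this]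
  simp only [map_sub, map_mul, ev_sg, algHom_C, Algebra.algebraMap_self, RingHom.id_apply,
    ← hm.2 L L' w hL hL' hLL, ← hm'.2 L L' w hL hL' hLL, b3 i hij, b3 _ (hpa _ p.2)] at b1 b2 ⊢
  linear_combination cov L w p p * b1 - cov L w p j * b2

lemma main (hE : ∀ v, ¬ TransGen E v v) (hT : IsToric (vanishingIdeal ℝ (model E)))
    {i j : Fin n} (hij : ¬ ReflTransGen E j i) (h1 : ¬ E i j) :
    ∃ C : Finset (Fin n), i ∉ C ∧ j ∉ C ∧ C.card ≤ 1 ∧ DSep E C i j ∧ DSep E C j i := by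
  have sub : ∀ E' : Fin n → Fin n → Prop, (∀ a b, E' a b → E a b) → (∀ v, ¬ TransGen E' v v) ∧
      ∀ a b, ¬ E a b → ind E' a b = 0 := fun E' h =>
    ⟨fun v hv => hE v (TransGen.mono h _ _ hv), fun a b hab => if_neg fun h' => hab (h _ _ h')⟩
  rcases rel hE hT hij with h | ⟨p, hp, h⟩
  · have := mem_I.1 h (ind E) 1 (sub E fun _ _ h => h).2 (by simp)
    rw [ev_sg, ← not_ne_iff, cov_ind hE] at this
    refine ⟨∅, by simp, by simp, by simp, dsep_of hE _ (by simp) (by simp) ?_ (by simp),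
      dsep_of hE _ (by simp) (by simp) ?_ (by simp)⟩
    · simpa using this
    · rintro ⟨t, a, b⟩
      exact this ⟨t, by simpa using b, by simpa using a⟩
  have hip : i ≠ p := fun e => h1 (e ▸ hp)
  have hjp : j ≠ p := fun e => hE j (.single (e ▸ hp))
  have key : ∀ E' : Fin n → Fin n → Prop, (∀ a b, E' a b → E a b) →
      ((∃ t, ReflTransGen E' t i ∧ ReflTransGen E' t j) ↔
      (∃ t, ReflTransGen E' t i ∧ ReflTransGen E' t p) ∧
        ∃ t, ReflTransGen E' t p ∧ ReflTransGen E' t j) := fun E' h' => by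
    have := mem_I.1 h (ind E') 1 (sub E' h').2 (by simp)
    simp only [map_sub, map_mul, ev_sg, sub_eq_zero] at this
    simp only [← cov_ind (sub E' h').1, ← mul_ne_zero_iff, ← this]
    rw [mul_ne_zero_iff, and_iff_left ((cov_ind (sub E' h').1 _ _).2 ⟨p, .refl, .refl⟩)]
  have c1 : ∀ t u, u ≠ p → ReflTransGen (fun a b => E a b ∧ a ∉ ({p} : Finset _)) t u →
      ReflTransGen (fun a b => E a b ∧ a ≠ p ∧ b ≠ p) t u := fun t u hu h => by
    induction h with
    | refl => rfl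
    | tail _ h ih => exact (ih (by simpa using h.2)).tail ⟨h.1, by simpa using h.2, hu⟩
  have c2 : ¬ ∃ t, ReflTransGen (fun a b => E a b ∧ a ∉ ({p} : Finset _)) t i ∧
      ReflTransGen (fun a b => E a b ∧ a ∉ ({p} : Finset _)) t j := by
    rintro ⟨t, a, b⟩
    obtain ⟨⟨s, x, y⟩, -⟩ := (key _ fun _ _ h => h.1).1 ⟨t, c1 _ _ hip a, c1 _ _ hjp b⟩
    rcases y.cases_tail with rfl | ⟨_, -, y⟩
    · rcases x.cases_head with rfl | ⟨_, x, -⟩
      · exact hip rfl
      · exact x.2.1 rfl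
    · exact y.2.2 rfl
  have c3 : ∀ t, ReflTransGen E t p →
      ReflTransGen (fun a b => E a b ∧ a ∉ ({p} : Finset _)) t p := fun t h => by
    induction h using ReflTransGen.head_induction_on with
    | refl => rfl
    | head a b ih =>
      refine .head ⟨a, fun e => hE p ?_⟩ ih
      rw [Finset.mem_singleton.1 e] at a
      exact .head' a b
  refine ⟨{p}, by simpa, by simpa, by simp, dsep_of hE _ (by simpa) (by simpa) c2 ?_,
    dsep_of hE _ (by simpa) (by simpa) (fun ⟨t, a, b⟩ => c2 ⟨t, b, a⟩) ?_⟩ <;>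
  simp only [Finset.mem_singleton, forall_eq] at c2 c3 ⊢
  · rintro ⟨⟨t, a, b⟩, s, c, d⟩
    exact c2 ((key _ fun _ _ h => h.1).2 ⟨⟨t, a, c3 _ b⟩, s, c3 _ d, c⟩)
  · rintro ⟨⟨s, c, d⟩, t, a, b⟩
    exact c2 ((key _ fun _ _ h => h.1).2 ⟨⟨t, a, c3 _ b⟩, s, c3 _ d, c⟩)

end

theorem result (n : ℕ) (E : Fin n → Fin n → Prop) (hE : ∀ v, ¬ TransGen E v v) (i j : Fin n)
    (hij : i ≠ j) (h1 : ¬ E i j) (h2 : ¬ E j i)
    (h : ∀ C : Finset (Fin n), i ∉ C → j ∉ C → DSep E C i j → 2 ≤ C.card) :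
    ¬ IsToric (vanishingIdeal ℝ (model E)) := by
  intro hT
  by_cases hd : ReflTransGen E j i
  · obtain ⟨C, a, b, c, -, d⟩ := main hE hT (i := j) (j := i) (fun h' => hE i
      (((reflTransGen_iff_eq_or_transGen.1 h').resolve_left hij.symm).trans_left hd)) h2
    have := h C b a d
    omega
  · obtain ⟨C, a, b, c, d, -⟩ := main hE hT hd h1
    have := h C a b d
    omega

end Pool.Agent.Results.MP_3a69bf_ag.NotToric
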